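import Mathlib
import Pool.Agent.X3.NfaTqk
import Pool.Agent.X3.NfaComp

/-!
# The 3x+d maps: automatic complexity, uniformly in `d`
-/

set_option autoImplicit false

open Filter

namespace Pool.Agent.Results.MP_d0d59f_nt.AutomaticComplexity

/-- The map `T_d` on the integers: `(3 x + d) / 2` for odd `x`, `x / 2` for even `x`. -/
def T (d x : ℤ) : ℤ := if x % 2 = 0 then x / 2 else (3 * x + d) / 2

/-- The parity of the `i`-th element of the orbit of `x`. -/
def parity (d x : ℤ) (i : ℕ) : ZMod 2 := (((T d)^[i] x : ℤ) : ZMod 2)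

/-- The word formed by the parities of `x, T_d x, …, T_d^(N-1) x`. -/
def parityWord (d x : ℤ) (N : ℕ) : List (ZMod 2) := (List.range N).map (parity d x)

/-- The automatic complexity of a word: the least number of states of a nondeterministic finite
automaton that accepts `w` and no other word of the same length. -/
noncomputable def complexity (w : List (ZMod 2)) : ℕ :=
  sInf {q : ℕ | ∃ M : NFA (ZMod 2) (Fin q),
    ∀ v : List (ZMod 2), v.length = w.length → (v ∈ M.accepts ↔ v = w)}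

/-- The number of words of length `N` accepted by the automaton. -/
noncomputable def numAccepted {s : ℕ} (M : NFA (ZMod 2) (Fin s)) (N : ℕ) : ℕ :=
  {w : List (ZMod 2) | w ∈ M.accepts ∧ w.length = N}.ncard

/-- The number of the `i < N` with `w i ≠ parity d x i`. -/
def numErrors (d x : ℤ) (N : ℕ) (w : ℕ → ZMod 2) : ℕ :=
  ((Finset.range N).filter fun i => w i ≠ parity d x i).card

/-- Up to at most `c log N` errors the parity word of `x` of length `N` is accepted by a
nondeterministic finite automaton that has at most `N ^ (1 - δ)` states and accepts fewer than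
`exp (c (log N) ^ 2)` words of length `N`. -/
def Simple (d : ℤ) (c δ : ℝ) (x : ℤ) (N : ℕ) : Prop :=
  ∃ (s : ℕ) (M : NFA (ZMod 2) (Fin s)) (w : ℕ → ZMod 2), (s : ℝ) ≤ (N : ℝ) ^ (1 - δ) ∧
    (List.range N).map w ∈ M.accepts ∧ (numErrors d x N w : ℝ) ≤ c * Real.log N ∧
    (numAccepted M N : ℝ) < Real.exp (c * Real.log N ^ 2)

/-- The parity word of `x` of length `N` is simple for all `N ≥ N₁` with
`log (|x| + |d| + 2) ≤ √N`. -/
def Tame (d : ℤ) (c δ : ℝ) (N₁ : ℕ) (x : ℤ) : Prop :=
  ∀ N : ℕ, N₁ ≤ N → Real.log (|(x : ℝ)| + |(d : ℝ)| + 2) ≤ Real.sqrt N → Simple d c δ x N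

theorem comp_eq (w : List (ZMod 2)) : complexity w = Pool.Agent.X3.NfaComp.comp w := rfl

theorem T_eq (d : ℤ) : T d = Pool.Agent.X3.NfaTqk.T 3 d := rfl

theorem par_eq (d x : ℤ) : parity d x = Pool.Agent.X3.NfaTqk.par 3 d x := rfl

theorem len (d x : ℤ) (N : ℕ) : (parityWord d x N).length = N := by simp [parityWord]

/-- (1) There is `C` such that for all odd `d` and all `x` with period `N ≥ 1` under `T_d` the parity
word of `x` of length `N` has automatic complexity at least
`N / log (|d| + 2) * exp (-C √(log N))` (and at most `N + 1`).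

(2) For every `δ ∈ (0, 1]` there are `c > 0` and `N₁` such that for all odd `d` and all `x` with
period `N ≥ N₁` under `T_d`, `log (|d| + 2) ≤ N ^ (1/3)`: every nondeterministic finite automaton
with at most `N ^ (1 - δ)` states which accepts a word of length `N` that differs from the parity
word of `x` in at most `c log N` places accepts at least `exp (c (log N) ^ 2)` words of length `N`.

(3) For every `δ ∈ (0, 1]` there is `c > 0` such that for every odd `d` and every `N₁` there is a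
finite set `F` of integers such that the orbit under `T_d` of every integer `x` all of whose
iterates are tame (with the parameters `c`, `δ`, `N₁`) contains an element of `F`. -/
theorem result :
    (∃ C : ℝ, ∀ d : ℤ, d % 2 = 1 → ∀ (x : ℤ) (N : ℕ), 1 ≤ N →
      Function.minimalPeriod (T d) x = N →
      (N : ℝ) / Real.log (|(d : ℝ)| + 2) * Real.exp (-(C * Real.sqrt (Real.log N))) ≤
        complexity (parityWord d x N) ∧ complexity (parityWord d x N) ≤ N + 1) ∧
    (∀ δ : ℝ, 0 < δ → δ ≤ 1 → ∃ c : ℝ, 0 < c ∧ ∃ N₁ : ℕ, ∀ d : ℤ, d % 2 = 1 →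
      ∀ (x : ℤ) (N : ℕ), N₁ ≤ N → Real.log (|(d : ℝ)| + 2) ≤ (N : ℝ) ^ (1 / 3 : ℝ) →
      Function.minimalPeriod (T d) x = N →
      ∀ (s : ℕ) (M : NFA (ZMod 2) (Fin s)), (s : ℝ) ≤ (N : ℝ) ^ (1 - δ) →
      ∀ w : ℕ → ZMod 2, (numErrors d x N w : ℝ) ≤ c * Real.log N →
        (List.range N).map w ∈ M.accepts → Real.exp (c * Real.log N ^ 2) ≤ numAccepted M N) ∧
    (∀ δ : ℝ, 0 < δ → δ ≤ 1 → ∃ c : ℝ, 0 < c ∧ ∀ d : ℤ, d % 2 = 1 → ∀ N₁ : ℕ,
      ∃ F : Finset ℤ, ∀ x : ℤ, (∀ i, Tame d c δ N₁ ((T d)^[i] x)) → ∃ i, (T d)^[i] x ∈ F) := by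
  have h31 : ((3 : ℕ) : ℤ) = 3 := rfl
  refine ⟨?_, ?_, ?_⟩
  · obtain ⟨C, hC, h⟩ := Pool.Agent.X3.NfaTqk.cycle_states Nat.prime_three (by norm_num)
    refine ⟨C, fun d hd x N hN hx => ⟨?_, ?_⟩⟩
    · obtain ⟨M, hM⟩ := Pool.Agent.X3.NfaComp.comp_spec (parityWord d x N)
      rw [len] at hM
      have h1 := h d hd x N hN hx _ M ((hM _ (len d x N)).2 rfl)
        (fun v hv hvN => (hM v hvN).1 hv)
      rwa [Fintype.card_fin, ← comp_eq] at h1
    · have := Pool.Agent.X3.NfaComp.comp_le (parityWord d x N)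
      rwa [len] at this
  · intro δ hδ hδ1
    obtain ⟨c, hc, N₁, h⟩ := Pool.Agent.X3.NfaTqk.cycle_words Nat.prime_three (by norm_num) δ hδ hδ1
    refine ⟨c, hc, N₁, fun d hd x N hN hdN hx s M hs w hw hacc => ?_⟩
    exact h d hd x N hN hdN hx (Fin s) M (by rw [Fintype.card_fin]; exact hs) w hw hacc
  · intro δ hδ hδ1
    obtain ⟨c, hc, N₂, h⟩ := Pool.Agent.X3.NfaTqk.orbit_words (q := 3) (by norm_num) (by norm_num)
      δ hδ hδ1
    obtain ⟨B, hB, hsm⟩ := Pool.Agent.X3.NfaTqk.small_elt Nat.prime_three (by norm_num)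
    refine ⟨c, hc, fun d hd N₁ => ?_⟩
    -- a tame point without repetitions up to a large `N`
    have key : ∀ (y : ℤ) (N : ℕ), Tame d c δ N₁ y → N₁ ≤ N → N₂ ≤ N →
        Real.log (|(y : ℝ)| + |(d : ℝ)| + 2) ≤ Real.sqrt N →
        (∀ i j, i < j → j < N → (T d)^[i] y ≠ (T d)^[j] y) → False := by
      intro y N hy h1 h2 h3 h4
      obtain ⟨s, M, w, h5, h6, h7, h8⟩ := hy N h1 h3
      have := h d hd y N h2 h4 (by rwa [← Real.sqrt_eq_rpow]) (Fin s) M
        (by rw [Fintype.card_fin]; exact h5) w h7 h6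
      have h9 : (numAccepted M N : ℝ) = Pool.Agent.X3.NfaTqk.nac M N := rfl
      linarith
    -- the size of the small element
    have hev : ∀ᶠ z : ℝ in atTop,
        2 * Real.log (|(d : ℝ)| + 2) + B * (1 + Real.log z) ^ 2 ≤ Real.sqrt z := by
      have h1 : (fun z : ℝ => 1 + Real.log z) =o[atTop] fun z : ℝ => z ^ (1 / 8 : ℝ) := by
        refine Asymptotics.IsLittleO.add ?_ (isLittleO_log_rpow_atTop (by norm_num))
        refine Asymptotics.isLittleO_const_left.2 (Or.inr ?_)
        exact Filter.Tendsto.comp tendsto_norm_atTop_atTop (tendsto_rpow_atTop (by norm_num))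
      have h2 := h1.bound (show (0 : ℝ) < 1 by norm_num)
      have h3 : ∀ᶠ z : ℝ in atTop, 2 * Real.log (|(d : ℝ)| + 2) + B ≤ z ^ (1 / 4 : ℝ) :=
        (tendsto_rpow_atTop (by norm_num)).eventually_ge_atTop _
      filter_upwards [h2, h3, eventually_ge_atTop (1 : ℝ)] with z hz hz3 hz1
      have hz0 : 0 < z := by linarith
      have hl : 0 ≤ Real.log z := Real.log_nonneg hz1
      rw [Real.norm_of_nonneg (by linarith), Real.norm_of_nonneg (by positivity), one_mul] at hz
      have h4 : (1 + Real.log z) ^ 2 ≤ z ^ (1 / 4 : ℝ) := by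
        have h5 : (1 + Real.log z) ^ 2 ≤ (z ^ (1 / 8 : ℝ)) ^ 2 :=
          pow_le_pow_left₀ (by linarith) hz 2
        refine h5.trans (le_of_eq ?_)
        rw [← Real.rpow_natCast, ← Real.rpow_mul hz0.le]
        norm_num
      have h6 : Real.sqrt z = z ^ (1 / 4 : ℝ) * z ^ (1 / 4 : ℝ) := by
        rw [← Real.rpow_add hz0, Real.sqrt_eq_rpow]
        norm_num
      rw [h6]
      have h7 : 1 ≤ z ^ (1 / 4 : ℝ) := Real.one_le_rpow hz1 (by norm_num)
      have h8 : B * (1 + Real.log z) ^ 2 ≤ B * z ^ (1 / 4 : ℝ) :=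
        mul_le_mul_of_nonneg_left h4 (by linarith)
      have h9 : 0 ≤ Real.log (|(d : ℝ)| + 2) := Real.log_nonneg (by
        have := abs_nonneg (d : ℝ)
        linarith)
      nlinarith
    obtain ⟨X, hX⟩ := Filter.eventually_atTop.1 hev
    obtain ⟨P, hP⟩ : ∃ P : ℕ, P = max (max N₁ N₂) ⌈X⌉₊ := ⟨_, rfl⟩
    have hfin : (⋃ p ∈ Finset.Icc 1 P,
        {x : ℤ | (Pool.Agent.H547R3.Sub.Tm (3 : ℕ) d)^[p] x = x}).Finite := by
      apply Set.Finite.biUnion (Finset.finite_toSet _)
      intro p hp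
      exact Pool.Agent.H547R3.Sub.finite_per Nat.prime_three (by norm_num) d hd p
        (Finset.mem_Icc.1 (Finset.mem_coe.1 hp)).1
    refine ⟨hfin.toFinset, fun x hx => ?_⟩
    -- the orbit is eventually periodic
    have hper : ∃ i j, i < j ∧ (T d)^[i] x = (T d)^[j] x := by
      by_contra hcon
      push Not at hcon
      obtain ⟨Q, hQ⟩ : ∃ Q : ℕ, Q = ⌈Real.log (|(x : ℝ)| + |(d : ℝ)| + 2)⌉₊ ^ 2 := ⟨_, rfl⟩
      refine key x (max (max N₁ N₂) Q) (hx 0) (le_trans (le_max_left _ _) (le_max_left _ _))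
        (le_trans (le_max_right _ _) (le_max_left _ _)) ?_ (fun i j hij _ => hcon i j hij)
      apply Real.le_sqrt_of_sq_le
      have e1 : (Q : ℝ) ≤ ((max (max N₁ N₂) Q : ℕ) : ℝ) := by
        exact_mod_cast le_max_right _ _
      refine le_trans ?_ e1
      rw [hQ]
      push_cast
      apply pow_le_pow_left₀ _ (Nat.le_ceil _)
      apply Real.log_nonneg
      have := abs_nonneg (x : ℝ)
      have := abs_nonneg (d : ℝ)
      linarith
    obtain ⟨i, j, hij, he⟩ := hper
    obtain ⟨z, hz⟩ : ∃ z, z = (T d)^[i] x := ⟨_, rfl⟩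
    have hzper : (T d)^[j - i] z = z := by
      rw [hz, ← Function.iterate_add_apply, show j - i + i = j by omega, ← he]
    obtain ⟨p, hp⟩ : ∃ p, p = Function.minimalPeriod (T d) z := ⟨_, rfl⟩
    have hp1 : 1 ≤ p := by
      rw [hp]
      apply Function.minimalPeriod_pos_of_mem_periodicPts
      exact ⟨j - i, by omega, hzper⟩
    obtain ⟨l, hl, hlog⟩ := hsm d hd z p hp1 hp.symm
    obtain ⟨y, hy⟩ : ∃ y, y = (T d)^[l] z := ⟨_, rfl⟩
    have hyper : Function.minimalPeriod (T d) y = p := by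
      rw [hy, Function.minimalPeriod_apply_iterate ⟨j - i, by omega, hzper⟩, hp]
    have hyx : y = (T d)^[l + i] x := by rw [hy, hz, ← Function.iterate_add_apply]
    have hpP : p ≤ P := by
      by_contra hcon
      push Not at hcon
      have hpX : X ≤ p := by
        have : ⌈X⌉₊ ≤ p := le_trans (le_trans (le_max_right _ _) hP.ge) hcon.le
        exact Nat.ceil_le.1 this
      have h1 : Real.log (|(y : ℝ)| + |(d : ℝ)| + 2) ≤ Real.sqrt p := by
        refine le_trans ?_ (hX p hpX)
        rw [hy]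
        exact hlog
      refine key y p (by rw [hyx]; exact hx _) ?_ ?_ h1 ?_
      · exact le_trans (le_trans (le_trans (le_max_left _ _) (le_max_left _ _)) hP.ge) hcon.le
      · exact le_trans (le_trans (le_trans (le_max_right _ _) (le_max_left _ _)) hP.ge) hcon.le
      · intro i' j' hij' hj' he'
        have := Function.iterate_injOn_Iio_minimalPeriod (f := T d) (x := y)
          (show i' ∈ Set.Iio _ by rw [hyper]; exact lt_trans hij' hj')
          (show j' ∈ Set.Iio _ by rw [hyper]; exact hj') he'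
        omega
    refine ⟨l + i, ?_⟩
    rw [← hyx, Set.Finite.mem_toFinset]
    simp only [Set.mem_iUnion]
    refine ⟨p, Finset.mem_coe.2 (Finset.mem_Icc.2 ⟨hp1, hpP⟩), ?_⟩
    show (T d)^[p] y = y
    rw [← hyper]
    exact Function.iterate_minimalPeriod

end Pool.Agent.Results.MP_d0d59f_nt.AutomaticComplexity
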