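import Mathlib
import Pool.Agent.X61.RT.Odd

/-!
# The radicals of the terms of the orbits of the `3x+d` maps, uniformly in `d`

For all odd `d` at once: if the first `N` terms of an orbit of `T_d` are different (those of an
unbounded orbit, or of a cycle of length at least `N`), then all odd terms `y`, except `O (N / log N)`
of them, satisfy `rad(d) rad(y) > N ^ (1 - ε)`. The constant depends on `ε` only.
-/

set_option autoImplicit false

namespace Pool.Agent.Results.MP_d0d59f_nt.RadicalsUniformInD

open Finset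

/-- The map `T_d`. -/
def T (d x : ℤ) : ℤ := if x % 2 = 0 then x / 2 else (3 * x + d) / 2

/-- The radical: the product of the primes dividing `n`. -/
def radical (n : ℤ) : ℕ := ∏ p ∈ n.natAbs.primeFactors, p

/-- **Radicals of the terms.** For every `ε > 0` there is `C` such that for all odd integers `d`, all
integers `x` and all `N ≥ 2` for which the first `N` terms of the orbit of `x` under `T_d` are
different, at most `C N / log N` of the `i < N` are such that `y = T_d^i (x)` is odd and
`rad(d) rad(y) ≤ N ^ (1 - ε)`. -/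
theorem result : ∀ ε : ℝ, 0 < ε → ∃ C : ℝ, 0 < C ∧ ∀ (d x : ℤ) (N : ℕ), d % 2 = 1 → 2 ≤ N →
      (∀ i < N, ∀ j < N, (T d)^[i] x = (T d)^[j] x → i = j) →
      (((range N).filter fun i => (T d)^[i] x % 2 = 1 ∧
        (radical d : ℝ) * (radical ((T d)^[i] x) : ℝ) ≤ (N : ℝ) ^ (1 - ε)).card : ℝ) ≤
          C * (N / Real.log N) := by
  classical
  intro ε hε
  obtain ⟨C, hC, hmain⟩ := Pool.Agent.X61.RT.rare (min ε (1 / 2)) (by positivity)
    (lt_of_le_of_lt (min_le_right _ _) (by norm_num)) 5 (by norm_num)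
  refine ⟨C, hC, ?_⟩
  intro d x N hd hN hinj
  have hT : T d = Pool.Agent.X61.RT.Ta 3 d := rfl
  rw [hT] at hinj ⊢
  have hN1 : (1 : ℝ) ≤ N := by exact_mod_cast (by omega : 1 ≤ N)
  have hit : ∀ i j : ℕ, (fun i : ℕ => i + 1)^[j] i = i + j := by
    intro i j
    induction j with
    | zero => rfl
    | succ j ih => rw [Function.iterate_succ_apply', ih]; rfl
  refine hmain (fun i : ℕ => i + 1) (fun i => (Pool.Agent.X61.RT.Ta 3 d)^[i] x) Set.univ d N _
    (Set.mapsTo_univ _ _) (fun i _ j _ h => by simpa using h) (by intro h; rw [h] at hd; omega) hN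
    (fun _ _ => Set.mem_univ _) ?_ ?_ ?_ ?_
  · intro i hi
    obtain ⟨h1, h2, h3⟩ := Finset.mem_filter.1 hi
    refine ⟨fun h => by rw [h] at h2; omega, ?_⟩
    refine le_trans (b := (N : ℝ) ^ (1 - ε)) h3 ?_
    exact Real.rpow_le_rpow_of_exponent_le hN1 (by linarith [min_le_left ε (1 / 2)])
  · intro i hi j hj h
    exact hinj i (Finset.mem_range.1 (Finset.mem_filter.1 hi).1) j
      (Finset.mem_range.1 (Finset.mem_filter.1 hj).1) h
  · intro i hi j hj1 hj2
    obtain ⟨-, h2, -⟩ := Finset.mem_filter.1 hi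
    have h3 := Pool.Agent.X61.RT.Ta_rel (a := 3) (k := d) rfl hd (by norm_num)
      (x := (Pool.Agent.X61.RT.Ta 3 d)^[i] x) (by omega) 5 (by norm_num) hj1
    rw [hit, add_comm i j, Function.iterate_add_apply]
    exact h3
  · intro J
    refine ⟨range (N + J), by rw [card_range], ?_⟩
    intro i hi j hj
    rw [hit, Finset.mem_range]
    have := Finset.mem_range.1 (Finset.mem_filter.1 hi).1
    omega

end Pool.Agent.Results.MP_d0d59f_nt.RadicalsUniformInD
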