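import Pool.Agent.X17.DW.C

set_option autoImplicit false

/-!
# The `3x+d` maps near integers with random or missing digits, uniformly in `d`, and for `d` with random digits

Let `b ≥ 3` be odd, `f` a nonconstant integer polynomial, `A` any integer, and let `n` be a random natural number
with `L` independent digits in base `b`, where for a fixed odd `Δ` at each place some two digits with difference
`Δ` have probability at least `c > 0`. Let `W = √L / (log L) ^ 18`.

1. (`d` fixed, start random.) There is one `t = o(L)` such that for all odd `d`, all `A` and all these laws, outside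
an event of small probability, all the orbits under `T_d` which pass, at any time, through one of the integers
`3 ^ i y + d r`, `i ≤ W`, `|r| ≤ exp W`, where `y = f (A + n)`, meet the orbit of `y` exactly `t` steps later, at
its `t`-th term.
2. (`d` random, start fixed.) The same holds for the orbits near an arbitrary odd integer `x` for `d = f (A + n)`.
3. The same for almost all integers with `L` digits, all in a set `D` which contains an even and an odd digit.
-/

namespace Pool.Agent.Results.MP_d0d59f_nt.RandomD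

open Filter Topology Polynomial Pool.Agent

/-- the `3x+d` map -/
def T (d x : ℤ) : ℤ := if x % 2 = 0 then x / 2 else (3 * x + d) / 2

/-- The number of odd integers among the first `t` terms `x, T_d x, ..., T_d^(t-1) x` of the orbit of `x`. -/
def odds (d : ℤ) (t : ℕ) (x : ℤ) : ℕ := ((Finset.range t).filter fun j => (T d)^[j] x % 2 = 1).card

/-- The orbits under `T_d` which come near to one of the integers `3 ^ i y`, `i ≤ w`, have merged with the orbit of
`y` after `t` more steps: if the term of index `j` of the orbit of `z` is `3 ^ i y + d r` with `i ≤ w` and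
`|r| ≤ exp w`, then the term of index `t + j` of the orbit of `z` is the term of index `t` of the orbit of `y`,
and the numbers of odd terms before these terms differ by `odds d j z - i`. -/
def Merges (d : ℤ) (w : ℝ) (t : ℕ) (y : ℤ) : Prop :=
  ∀ (z r : ℤ) (i j : ℕ), (i : ℝ) ≤ w → |(r : ℝ)| ≤ Real.exp w → (T d)^[j] z = 3 ^ i * y + d * r →
    (T d)^[t + j] z = (T d)^[t] y ∧ odds d (t + j) z + i = odds d t y + odds d j z

/-- The integer with the digits `x 0, x 1, …, x (L - 1)` in base `b`. -/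
def number (b : ℕ) {L : ℕ} (x : Fin L → Fin b) : ℕ := ∑ j : Fin L, (x j : ℕ) * b ^ (j : ℕ)

open Classical in
/-- The probability that the random integer with `L` independent digits in base `b`, where the digit at
the place `j` is `x` with probability `ν j x`, has the property `P`. -/
noncomputable def Prob {b L : ℕ} (ν : Fin L → Fin b → ℝ) (P : ℕ → Prop) : ℝ :=
  ∑ x : Fin L → Fin b, if P (number b x) then ∏ j, ν j (x j) else 0

/-- The `ν j` are probability laws on the digits, and for each place `j` there are two digits `e` and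
`e' = e + Δ` whose probabilities are at least `c`. -/
structure DigitLaws (b Δ : ℕ) (c : ℝ) {L : ℕ} (ν : Fin L → Fin b → ℝ) : Prop where
  nonneg : ∀ j x, 0 ≤ ν j x
  one : ∀ j, ∑ x, ν j x = 1
  two : ∀ j, ∃ e e' : Fin b, (e' : ℕ) = e + Δ ∧ c ≤ ν j e ∧ c ≤ ν j e'

/-- The integers `n < b ^ L` whose `L` digits in base `b` (with leading zeros) are all in `D`. -/
def DigitsIn (b : ℕ) (D : Finset ℕ) (L : ℕ) : Set ℕ := {n | n < b ^ L ∧ ∀ j < L, n / b ^ j % b ∈ D}

/-- The range `√L / (log L) ^ 18`. -/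
noncomputable def W (L : ℕ) : ℝ := √ (L : ℝ) / Real.log L ^ 18

theorem odds_add (d : ℤ) (t j : ℕ) (z : ℤ) : odds d (t + j) z = odds d t ((T d)^[j] z) + odds d j z := by
  unfold odds
  rw [Finset.card_filter, Finset.card_filter, Finset.card_filter, add_comm t j, Finset.sum_range_add, add_comm]
  congr 1
  apply Finset.sum_congr rfl
  intro i _
  rw [add_comm j i, Function.iterate_add_apply]

theorem merges_of {d : ℤ} {w : ℝ} {t : ℕ} {y : ℤ} (h : X17.DW.Near d w t y) : Merges d w t y := by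
  intro z r i j hi hr hz
  obtain ⟨h1, h2⟩ := h i r hi hr
  rw [← hz] at h1 h2
  refine ⟨?_, ?_⟩
  · rw [Function.iterate_add_apply]; exact h1
  · rw [odds_add]
    have h3 : odds d t ((T d)^[j] z) + i = odds d t y := h2
    omega

theorem prob_eq {b L : ℕ} (ν : Fin L → Fin b → ℝ) (P : ℕ → Prop) : Prob ν P = X17.MD.prob ν P := by
  classical
  rw [X17.MD.prob_eq P ((Finset.univ : Finset (Fin L → Fin b)).filter (fun d => P (X17.MD.num b d)))
    (fun d => by simp), Finset.sum_filter]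
  unfold Prob
  apply Finset.sum_congr rfl
  intro d _
  have e : number b d = X17.MD.num b d := rfl
  rw [e]
  by_cases h : P (X17.MD.num b d)
  · rw [if_pos h, if_pos h]; rfl
  · rw [if_neg h, if_neg h]

theorem laws {b Δ : ℕ} {c c' : ℝ} (hc : c' ≤ c) {L : ℕ} {ν : Fin L → Fin b → ℝ} (h : DigitLaws b Δ c ν) :
    X17.MD.Law b Δ c' ν :=
  ⟨h.nonneg, h.one, fun j => by
    obtain ⟨e, e', h1, h2, h3⟩ := h.two j
    exact ⟨e, e', h1, hc.trans h2, hc.trans h3⟩⟩

/-- the estimates, for the laws with a parameter at most one -/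
theorem main {b : ℕ} (hbo : b % 2 = 1) (hb3 : 3 ≤ b) {f : ℤ[X]} (hf : 1 ≤ f.natDegree) {κ ε c : ℝ}
    (hκ : 0 < κ) (hε : 0 < ε) (hc : 0 < c) (hc1 : c ≤ 1) :
    ∃ L₀ : ℕ, ∀ L ≥ L₀, ∃ t : ℕ, (t : ℝ) ≤ κ * (L / Real.log L) ∧
      ∀ (Δ : ℕ) (ν : Fin L → Fin b → ℝ), Δ % 2 = 1 → X17.MD.Law b Δ c ν → ∀ A : ℤ,
        (∀ d : ℤ, Odd d → X17.MD.prob ν (fun n => ¬ Merges d (W L) t (f.eval (A + (n : ℤ)))) ≤ ε) ∧
        (∀ x : ℤ, Odd x → X17.MD.prob ν (fun n => Odd (f.eval (A + (n : ℤ))) ∧
          ¬ Merges (f.eval (A + (n : ℤ))) (W L) t x) ≤ ε) := by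
  obtain ⟨L₀, h⟩ := X17.DW.near hf hbo hb3 hc hc1 hκ hε
  refine ⟨L₀, fun L hL => ?_⟩
  obtain ⟨t, ht, h1⟩ := h L hL
  refine ⟨t, ht, fun Δ ν hΔ hl A => ⟨fun d hd => ?_, fun x hx => ?_⟩⟩
  · refine (X17.MD.prob_mono hl.nonneg (fun n hn hN => hn (merges_of hN))).trans
      ((h1 Δ ν hΔ hl A).1 d (Int.odd_iff.1 hd))
  · refine (X17.MD.prob_mono hl.nonneg (fun n hn => ?_)).trans ((h1 Δ ν hΔ hl A).2 x (Int.odd_iff.1 hx))
    exact ⟨Int.odd_iff.1 hn.1, fun hN => hn.2 (merges_of hN)⟩

/-- **Main theorem.** Let `b ≥ 3` be odd, `f` an integer polynomial of degree at least `1`, and `κ, ε > 0`.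
1. For every `c > 0` and all `L ≥ L₀ (b, f, κ, ε, c)` there is `t ≤ κ L / log L` such that for all odd `Δ`, all laws
of `L` independent digits in base `b` which give at each place probabilities at least `c` to two digits with
difference `Δ`, and all integers `A`, with `W = √L / (log L) ^ 18`:
(a) for all odd `d` the probability that `Merges d W t (f (A + n))` fails is at most `ε`;
(b) for all odd `x` the probability that `d = f (A + n)` is odd and `Merges d W t x` fails is at most `ε`.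
2. Let `D` be a set of digits which contains an even and an odd digit. For `L ≥ L₀` there is `t ≤ κ L / log L` such
that for all integers `A`: (a) for all odd `d` the property `Merges d W t (f (A + n))` fails for at most
`ε |D| ^ L` of the `|D| ^ L` integers `n` with `L` digits, all in `D`; (b) for all odd `x` at most `ε |D| ^ L` of these
`n` are such that `d = f (A + n)` is odd and `Merges d W t x` fails.
3. If `Merges d w t y` and `S` is a set of integers with `T_d x ∈ S` if and only if `x ∈ S` (such as the set of the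
integers whose orbits reach a given cycle, or of those with an unbounded orbit), then the integers `z` of which
some iterate is `3 ^ i y + d r`, `i ≤ w`, `|r| ≤ exp w`, are in `S` if and only if `y` is. -/
theorem result (b : ℕ) (hb : Odd b) (hb3 : 3 ≤ b) (f : ℤ[X]) (hf : 1 ≤ f.natDegree) (κ ε : ℝ) (hκ : 0 < κ)
    (hε : 0 < ε) :
    (∀ c : ℝ, 0 < c → ∃ L₀ : ℕ, ∀ L ≥ L₀, ∃ t : ℕ, (t : ℝ) ≤ κ * (L / Real.log L) ∧
      ∀ (Δ : ℕ) (ν : Fin L → Fin b → ℝ), Odd Δ → DigitLaws b Δ c ν → ∀ A : ℤ,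
        (∀ d : ℤ, Odd d → Prob ν (fun n => ¬ Merges d (W L) t (f.eval (A + (n : ℤ)))) ≤ ε) ∧
        (∀ x : ℤ, Odd x → Prob ν (fun n => Odd (f.eval (A + (n : ℤ))) ∧
          ¬ Merges (f.eval (A + (n : ℤ))) (W L) t x) ≤ ε)) ∧
    (∀ D : Finset ℕ, (∀ x ∈ D, x < b) → (∃ x ∈ D, Even x) → (∃ x ∈ D, Odd x) →
      ∃ L₀ : ℕ, ∀ L ≥ L₀, ∃ t : ℕ, (t : ℝ) ≤ κ * (L / Real.log L) ∧ ∀ A : ℤ,
        (∀ d : ℤ, Odd d →
          ({n : ℕ | n ∈ DigitsIn b D L ∧ ¬ Merges d (W L) t (f.eval (A + (n : ℤ)))}.ncard : ℝ) ≤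
            ε * (D.card : ℝ) ^ L) ∧
        (∀ x : ℤ, Odd x →
          ({n : ℕ | n ∈ DigitsIn b D L ∧ Odd (f.eval (A + (n : ℤ))) ∧
            ¬ Merges (f.eval (A + (n : ℤ))) (W L) t x}.ncard : ℝ) ≤ ε * (D.card : ℝ) ^ L)) ∧
    (∀ (d : ℤ) (w : ℝ) (t : ℕ) (y : ℤ), Merges d w t y → ∀ S : Set ℤ, (∀ x, T d x ∈ S ↔ x ∈ S) →
      ∀ (z r : ℤ) (i j : ℕ), (i : ℝ) ≤ w → |(r : ℝ)| ≤ Real.exp w → (T d)^[j] z = 3 ^ i * y + d * r →
        (z ∈ S ↔ y ∈ S)) := by
  have hbo : b % 2 = 1 := Nat.odd_iff.1 hb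
  refine ⟨?_, ?_, ?_⟩
  · intro c hc
    obtain ⟨L₀, h⟩ := main hbo hb3 hf hκ hε (c := min c 1) (lt_min hc one_pos) (min_le_right _ _)
    refine ⟨L₀, fun L hL => ?_⟩
    obtain ⟨t, ht, h1⟩ := h L hL
    refine ⟨t, ht, fun Δ ν hΔ hl A => ?_⟩
    obtain ⟨h2, h3⟩ := h1 Δ ν (Nat.odd_iff.1 hΔ) (laws (min_le_left _ _) hl) A
    refine ⟨fun d hd => ?_, fun x hx => ?_⟩
    · rw [prob_eq]; exact h2 d hd
    · rw [prob_eq]; exact h3 x hx
  · intro D hD he ho
    obtain ⟨hcard, x, y, hx, hy, hxy, hpar⟩ := X17.MD.exists_pair (D := D)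
      (by obtain ⟨x, h1, h2⟩ := he; exact ⟨x, h1, Nat.even_iff.1 h2⟩)
      (by obtain ⟨x, h1, h2⟩ := ho; exact ⟨x, h1, Nat.odd_iff.1 h2⟩)
    have hc0 : (0 : ℝ) < D.card := by exact_mod_cast (by omega : 0 < D.card)
    have hle : 1 / (D.card : ℝ) ≤ 1 := by
      rw [div_le_one hc0]
      exact_mod_cast (by omega : 1 ≤ D.card)
    obtain ⟨L₀, h⟩ := main hbo hb3 hf hκ hε (c := 1 / (D.card : ℝ)) (by positivity) hle
    refine ⟨L₀, fun L hL => ?_⟩
    obtain ⟨t, ht, h1⟩ := h L hL
    have hlaw := X17.MD.unif_law hD hx hy hxy L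
    have hp : (0 : ℝ) < (D.card : ℝ) ^ L := by positivity
    have key : ∀ P : ℕ → Prop, X17.MD.prob (X17.MD.unif b D L) P ≤ ε →
        ({n : ℕ | n ∈ DigitsIn b D L ∧ P n}.ncard : ℝ) ≤ ε * (D.card : ℝ) ^ L := by
      intro P hP
      have e : {n : ℕ | n ∈ DigitsIn b D L ∧ P n} =
          {n : ℕ | n < b ^ L ∧ (∀ j < L, n / b ^ j % b ∈ D) ∧ P n} := by
        ext n; simp only [DigitsIn, Set.mem_ofPred_eq, and_assoc]
      rw [e]
      refine (X17.MD.count_le (by omega) D hD ⟨x, hx⟩ L P).trans ?_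
      nlinarith
    refine ⟨t, ht, fun A => ⟨fun d hd => ?_, fun x hx => ?_⟩⟩
    · exact key _ ((h1 (y - x) _ hpar hlaw A).1 d hd)
    · exact key _ ((h1 _ _ hpar hlaw A).2 x hx)
  · intro d w t y hM S hS z r i j hi hr hz
    have hit : ∀ (k : ℕ) (x : ℤ), (T d)^[k] x ∈ S ↔ x ∈ S := by
      intro k
      induction k with
      | zero => intro x; exact Iff.rfl
      | succ k ih =>
        intro x
        rw [Function.iterate_succ_apply, ih, hS]
    obtain ⟨h1, -⟩ := hM z r i j hi hr hz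
    rw [← hit (t + j) z, h1, hit]

end Pool.Agent.Results.MP_d0d59f_nt.RandomD
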