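import Mathlib
import Pool.Agent.TH930.PS.Stop

set_option autoImplicit false

/-!
# The stopping times of the `3x+d` maps: below the entropy exponent after `(1 + τ) log_2 X` steps

Looking only at the first `log_2 X` steps, about `X ^ β` of the integers up to `X` have not descended,
`β = 0.94995...` the binary entropy of `log 2 / log 3` in bits. Here it is shown that after a few more
steps, `(1 + τ) log_2 X`, the exponent is strictly smaller than `β`, in every interval (not only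
around zero) and for all odd `d` at the same time, with a polynomial dependence on `d`. The integers
may even descend a little.
-/

namespace Pool.Agent.Results.MP_d0d59f_nt.StoppingTimesBelowEntropy

open Finset

/-- the `3x+d` map on the integers -/
def T (d x : ℤ) : ℤ := if x % 2 = 0 then x / 2 else (3 * x + d) / 2

/-- the binary entropy of `log 2 / log 3` in bits, `0.94995...` -/
noncomputable def β : ℝ := Real.binEntropy (Real.log 2 / Real.log 3) / Real.log 2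

/-- There are `ε, τ, μ, A > 0` and `b ≥ 0`, `ε < β < 0.951`, such that for all odd `d`:

(1) in every interval `[u - 2^N, u + 2^N]` at most `A |d|^b 2^((β - ε) N)` integers `x` satisfy
`|x| ≤ 2^(μ N) |T^j x|` for all `j ≤ (1 + τ) N`;

(2) for every `X ≥ 1` at most `A |d|^b X^(β - ε)` integers `x` with `|x| ≤ X` satisfy
`|x| ≤ X^μ |T^j x|` for all `j ≤ (1 + τ) log_2 X`; in particular at most so many of them have
`|x| ≤ |T^j x|` for all these `j`. -/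
theorem result : ∃ ε τ μ A b : ℝ, 0 < ε ∧ ε < β ∧ β < 0.951 ∧ 0 < τ ∧ 0 < μ ∧ 0 < A ∧ 0 ≤ b ∧
    ∀ d : ℤ, d % 2 = 1 →
      (∀ (N : ℕ) (u : ℤ), (Set.ncard {x : ℤ | |x - u| ≤ 2 ^ N ∧ ∀ j : ℕ, (j : ℝ) ≤ (1 + τ) * N →
          |(x : ℝ)| ≤ (2 : ℝ) ^ (μ * N) * |(((T d)^[j] x : ℤ) : ℝ)|} : ℝ) ≤
        A * |(d : ℝ)| ^ b * (2 : ℝ) ^ ((β - ε) * N)) ∧
      (∀ X : ℝ, 1 ≤ X → (Set.ncard {x : ℤ | |(x : ℝ)| ≤ X ∧ ∀ j : ℕ,
          (j : ℝ) ≤ (1 + τ) * Real.logb 2 X →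
          |(x : ℝ)| ≤ X ^ μ * |(((T d)^[j] x : ℤ) : ℝ)|} : ℝ) ≤
        A * |(d : ℝ)| ^ b * X ^ (β - ε)) := by
  classical
  obtain ⟨ε, τ, μ, A, b, hε, hεβ, hτ, hμ, hA, hb, h⟩ := Pool.Agent.TH930.PS.stop_count
  change ε < β at hεβ
  have hβ : β < 0.951 := Pool.Agent.H319R2.beta_lt
  have hβε : 0 < β - ε := by linarith
  have key : ∀ d : ℤ, d % 2 = 1 → ∀ (N : ℕ) (u : ℤ) (S : Set ℤ),
      (∀ x ∈ S, |x - u| ≤ 2 ^ N ∧ ∀ j : ℕ, (j : ℝ) ≤ (1 + τ) * N →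
        |(x : ℝ)| ≤ (2 : ℝ) ^ (μ * N) * |(((T d)^[j] x : ℤ) : ℝ)|) →
      (Set.ncard S : ℝ) ≤ A * |(d : ℝ)| ^ b * (2 : ℝ) ^ ((β - ε) * N) := by
    intro d hd N u S hS
    have hfin : S.Finite := by
      apply (Set.finite_Icc (u - (2 : ℤ) ^ N) (u + 2 ^ N)).subset
      intro x hx
      have := abs_le.1 (hS x hx).1
      constructor <;> linarith [this.1, this.2]
    rw [Set.ncard_eq_toFinset_card S hfin]
    apply h d (Int.odd_iff.2 hd) N u
    intro x hx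
    rw [Set.Finite.mem_toFinset] at hx
    exact hS x hx
  -- the scale beyond which `(1 + τ) ⌈log_2 X⌉ ≤ (1 + 2 τ) log_2 X`
  set X0 : ℝ := 2 ^ ((1 + τ) / τ) with hX0
  have hX0p : 0 < X0 := by positivity
  refine ⟨ε, 2 * τ, μ, A * 2 + 3 * X0 + 3, b, hε, hεβ, hβ, by positivity, hμ, by positivity, hb, ?_⟩
  intro d hd
  have hd1 : (1 : ℝ) ≤ |(d : ℝ)| := by
    have h1 : 1 ≤ |d| := Int.one_le_abs (by omega)
    exact_mod_cast h1
  have hdb : (1 : ℝ) ≤ |(d : ℝ)| ^ b := Real.one_le_rpow hd1 hb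
  refine ⟨?_, ?_⟩
  · intro N u
    have h1 := key d hd N u {x : ℤ | |x - u| ≤ 2 ^ N ∧ ∀ j : ℕ, (j : ℝ) ≤ (1 + 2 * τ) * N →
          |(x : ℝ)| ≤ (2 : ℝ) ^ (μ * N) * |(((T d)^[j] x : ℤ) : ℝ)|} (by
      rintro x ⟨h1, h2⟩
      refine ⟨h1, fun j hj => h2 j (hj.trans ?_)⟩
      have : (0 : ℝ) ≤ N := Nat.cast_nonneg N
      nlinarith)
    refine h1.trans ?_
    have h2 : 0 < (2 : ℝ) ^ ((β - ε) * N) := by positivity
    have h3 : 0 < |(d : ℝ)| ^ b * (2 : ℝ) ^ ((β - ε) * N) := by positivity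
    have h4 : A ≤ A * 2 + 3 * X0 + 3 := by linarith
    calc A * |(d : ℝ)| ^ b * (2 : ℝ) ^ ((β - ε) * N) = A * (|(d : ℝ)| ^ b * (2 : ℝ) ^ ((β - ε) * N)) := by
          ring
      _ ≤ (A * 2 + 3 * X0 + 3) * (|(d : ℝ)| ^ b * (2 : ℝ) ^ ((β - ε) * N)) :=
          mul_le_mul_of_nonneg_right h4 h3.le
      _ = _ := by ring
  · intro X hX
    have hX0' : (0 : ℝ) < X := by linarith
    have hl : 0 ≤ Real.logb 2 X := Real.logb_nonneg (by norm_num) hX
    have hXe : 1 ≤ X ^ (β - ε) := Real.one_le_rpow hX hβε.le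
    rcases le_or_gt X X0 with hle | hgt
    · -- small `X`
      have hsub : {x : ℤ | |(x : ℝ)| ≤ X ∧ ∀ j : ℕ, (j : ℝ) ≤ (1 + 2 * τ) * Real.logb 2 X →
          |(x : ℝ)| ≤ X ^ μ * |(((T d)^[j] x : ℤ) : ℝ)|} ⊆ Set.Icc (-⌈X⌉) ⌈X⌉ := by
        rintro x ⟨h1, -⟩
        have h2 := abs_le.1 (h1.trans (Int.le_ceil X))
        exact ⟨by exact_mod_cast h2.1, by exact_mod_cast h2.2⟩
      have h1 := Set.ncard_le_ncard hsub (Set.finite_Icc _ _)
      have h2 : ((Set.Icc (-⌈X⌉) ⌈X⌉ : Set ℤ).ncard : ℝ) ≤ 3 * X0 + 3 := by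
        have e : (Set.Icc (-⌈X⌉) ⌈X⌉ : Set ℤ) = ((Finset.Icc (-⌈X⌉) ⌈X⌉ : Finset ℤ) : Set ℤ) := by simp
        rw [e, Set.ncard_coe_finset, Int.card_Icc]
        have h3 : 0 ≤ ⌈X⌉ := Int.ceil_nonneg hX0'.le
        have h4 : (((⌈X⌉ + 1 - -⌈X⌉).toNat : ℕ) : ℤ) = ⌈X⌉ + 1 - -⌈X⌉ := Int.toNat_of_nonneg (by omega)
        have h5 : (((⌈X⌉ + 1 - -⌈X⌉).toNat : ℕ) : ℝ) = ((⌈X⌉ + 1 - -⌈X⌉ : ℤ) : ℝ) := by exact_mod_cast h4
        rw [h5]; push_cast
        have := Int.ceil_lt_add_one X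
        linarith
      have h3 : (Set.ncard {x : ℤ | |(x : ℝ)| ≤ X ∧ ∀ j : ℕ, (j : ℝ) ≤ (1 + 2 * τ) * Real.logb 2 X →
          |(x : ℝ)| ≤ X ^ μ * |(((T d)^[j] x : ℤ) : ℝ)|} : ℝ) ≤ 3 * X0 + 3 :=
        le_trans (by exact_mod_cast h1) h2
      refine h3.trans ?_
      have h4 : 1 ≤ |(d : ℝ)| ^ b * X ^ (β - ε) := one_le_mul_of_one_le_of_one_le hdb hXe
      have h5 : 3 * X0 + 3 ≤ A * 2 + 3 * X0 + 3 := by linarith
      calc 3 * X0 + 3 ≤ (A * 2 + 3 * X0 + 3) * 1 := by linarith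
        _ ≤ (A * 2 + 3 * X0 + 3) * (|(d : ℝ)| ^ b * X ^ (β - ε)) :=
            mul_le_mul_of_nonneg_left h4 (by positivity)
        _ = _ := by ring
    · set N : ℕ := ⌈Real.logb 2 X⌉₊ with hN
      have hN1 : Real.logb 2 X ≤ N := Nat.le_ceil _
      have hN2 : (N : ℝ) < Real.logb 2 X + 1 := Nat.ceil_lt_add_one hl
      have hXN : X ≤ (2 : ℝ) ^ (N : ℝ) := by
        calc X = (2 : ℝ) ^ Real.logb 2 X := (Real.rpow_logb (by norm_num) (by norm_num) hX0').symm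
          _ ≤ _ := Real.rpow_le_rpow_of_exponent_le (by norm_num) hN1
      have hlX : (1 + τ) / τ < Real.logb 2 X := by
        rw [Real.lt_logb_iff_rpow_lt (by norm_num) hX0']
        exact hgt
      rw [div_lt_iff₀ hτ] at hlX
      have h1 := key d hd N 0 {x : ℤ | |(x : ℝ)| ≤ X ∧ ∀ j : ℕ,
          (j : ℝ) ≤ (1 + 2 * τ) * Real.logb 2 X →
          |(x : ℝ)| ≤ X ^ μ * |(((T d)^[j] x : ℤ) : ℝ)|} (by
        rintro x ⟨h2, h3⟩
        refine ⟨?_, fun j hj => ?_⟩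
        · rw [sub_zero]
          have h4 : |(x : ℝ)| ≤ (2 : ℝ) ^ N := by
            rw [Real.rpow_natCast] at hXN
            exact h2.trans hXN
          exact_mod_cast h4
        · have h4 : (j : ℝ) ≤ (1 + 2 * τ) * Real.logb 2 X := by
            refine hj.trans ?_
            nlinarith
          refine (h3 j h4).trans ?_
          apply mul_le_mul_of_nonneg_right _ (abs_nonneg _)
          calc X ^ μ ≤ ((2 : ℝ) ^ (N : ℝ)) ^ μ := Real.rpow_le_rpow hX0'.le hXN hμ.le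
            _ = (2 : ℝ) ^ (μ * N) := by rw [← Real.rpow_mul (by norm_num), mul_comm])
      refine h1.trans ?_
      have h2 : (2 : ℝ) ^ ((β - ε) * N) ≤ 2 * X ^ (β - ε) := by
        have h3 : (β - ε) * N ≤ 1 + Real.logb 2 X * (β - ε) := by nlinarith
        calc (2 : ℝ) ^ ((β - ε) * N) ≤ 2 ^ (1 + Real.logb 2 X * (β - ε)) :=
              Real.rpow_le_rpow_of_exponent_le (by norm_num) h3
          _ = 2 * X ^ (β - ε) := by
              rw [Real.rpow_add (by norm_num), Real.rpow_one, Real.rpow_mul (by norm_num),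
                Real.rpow_logb (by norm_num) (by norm_num) hX0']
      have h5 : 0 < |(d : ℝ)| ^ b := by positivity
      calc A * |(d : ℝ)| ^ b * (2 : ℝ) ^ ((β - ε) * N) ≤ A * |(d : ℝ)| ^ b * (2 * X ^ (β - ε)) :=
            mul_le_mul_of_nonneg_left h2 (by positivity)
        _ = (A * 2) * (|(d : ℝ)| ^ b * X ^ (β - ε)) := by ring
        _ ≤ (A * 2 + 3 * X0 + 3) * (|(d : ℝ)| ^ b * X ^ (β - ε)) := by
            apply mul_le_mul_of_nonneg_right _ (by positivity)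
            linarith
        _ = _ := by ring

end Pool.Agent.Results.MP_d0d59f_nt.StoppingTimesBelowEntropy
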